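import Pool.Agent.Run7.h148.E3.Iface

set_option autoImplicit false

/-! Proof of `St_FUB` (helper404). -/

open MeasureTheory Set Complex

namespace Run7.h404.EP

open Pool.Agent.H708R2.EulerSign Pool.Agent.H708R2.EulerTypeI Run7.h148.E3

/-- the equivalence `x ↦ (x_3, x_1 + i x_2)` -/
noncomputable def eqv : V ≃ᵐ ℝ × ℂ :=
  (MeasurableEquiv.piFinSuccAbove (fun _ : Fin 3 => ℝ) 2).trans
    ((MeasurableEquiv.refl ℝ).prodCongr Complex.measurableEquivPi.symm)

theorem eqv_apply (x : V) : eqv x = (x 2, ⟨x 0, x 1⟩) := by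
  apply Prod.ext
  · rfl
  · apply Complex.ext
    · change Complex.re ((Complex.measurableEquivPi.symm) _) = _
      rw [Complex.measurableEquivPi_symm_apply]
      simp
      rfl
    · change Complex.im ((Complex.measurableEquivPi.symm) _) = _
      rw [Complex.measurableEquivPi_symm_apply]
      simp
      rfl

theorem eqv_symm (c : ℝ) (z : ℂ) : eqv.symm (c, z) = emb z + Pi.single 2 c := by
  have : eqv (emb z + Pi.single 2 c) = (c, z) := by
    rw [eqv_apply]
    simp [emb]
  rw [← this, MeasurableEquiv.symm_apply_apply]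

theorem eqv_mp : MeasurePreserving eqv (volume : Measure V) (volume : Measure (ℝ × ℂ)) := by
  have h1 := volume_preserving_piFinSuccAbove (fun _ : Fin 3 => ℝ) 2
  have h2 : MeasurePreserving ((MeasurableEquiv.refl ℝ).prodCongr Complex.measurableEquivPi.symm)
      (volume : Measure (ℝ × (Fin 2 → ℝ))) (volume : Measure (ℝ × ℂ)) := by
    have h3 := Complex.volume_preserving_equiv_pi.symm
    exact (MeasurePreserving.id (volume : Measure ℝ)).prod h3
  exact h2.comp h1

theorem fub : St_FUB := by
  intro f hf h0 hz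
  have hmp := eqv_mp.symm
  have hemb : MeasurableEmbedding eqv.symm := eqv.symm.measurableEmbedding
  set Q : Set V := Icc (fun _ : Fin 3 => -Real.pi) (fun _ => Real.pi) with hQ
  have h1 : ∫ x in Q, f x = ∫ q in eqv.symm ⁻¹' Q, f (eqv.symm q) :=
    (hmp.setIntegral_preimage_emb hemb f Q).symm
  have h2 : ∀ q : ℝ × ℂ, f (eqv.symm q) = f (emb q.2) := by
    intro q
    rw [show q = (q.1, q.2) from rfl, eqv_symm, hz]
  have hsub : Icc (-Real.pi) Real.pi ×ˢ St ⊆ eqv.symm ⁻¹' Q := by
    rintro ⟨c, z⟩ ⟨hc, hz1, hz2, hz3, hz4⟩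
    have hpi := Real.pi_pos
    simp only [mem_preimage, eqv_symm, hQ, mem_Icc, Pi.le_def]
    refine ⟨fun i => ?_, fun i => ?_⟩ <;> fin_cases i <;> simp [emb] <;>
      simp at hc hz1 hz2 hz3 hz4 <;> linarith
  have hint : IntegrableOn (fun q => f (eqv.symm q)) (eqv.symm ⁻¹' Q) := by
    have := (hmp.integrableOn_comp_preimage hemb (f := f) (s := Q)).2
      (hf.continuousOn.integrableOn_compact isCompact_Icc)
    exact this
  rw [h1]
  calc 2 * Real.pi * ∫ z in St, f (emb z)
      = ∫ q in Icc (-Real.pi) Real.pi ×ˢ St, f (eqv.symm q) := by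
        simp_rw [h2]
        have := setIntegral_prod_mul (μ := (volume : Measure ℝ)) (ν := (volume : Measure ℂ))
          (fun _ => (1 : ℝ)) (fun z => f (emb z)) (Icc (-Real.pi) Real.pi) St
        simp only [one_mul] at this
        rw [show (volume : Measure (ℝ × ℂ)) = (volume : Measure ℝ).prod volume from rfl, this]
        have hpi := Real.pi_pos
        simp [max_eq_left (by linarith : (0 : ℝ) ≤ Real.pi + Real.pi)]
        left
        ring
    _ ≤ _ := setIntegral_mono_set hint (Filter.Eventually.of_forall fun q => h0 _)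
        (Filter.Eventually.of_forall hsub)

end Run7.h404.EP
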