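import Pool.Agent.Run7.h148.E3.Iface

set_option autoImplicit false

/-! Proof of `St_PROB` (helper404). -/

open MeasureTheory Set
open scoped ENNReal

namespace Run7.h404.EP

theorem slice (f : ℝ → ℝ) (m k : ℝ) (hk : 0 < k) (h : ∀ x s, k * |s| ≤ f x + f (x + s)) :
    volume {x | f x < m} ≤ ENNReal.ofReal (2 * max m 0 / k) := by
  refine (Real.volume_le_diam _).trans (Metric.ediam_le fun x hx y hy => ?_)
  rw [edist_dist]
  apply ENNReal.ofReal_le_ofReal
  have h1 := h x (y - x)
  rw [add_sub_cancel] at h1
  have hx' : f x < m := hx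
  have hy' : f y < m := hy
  rw [dist_comm, Real.dist_eq, le_div_iff₀ hk]
  have := le_max_left m 0
  nlinarith

theorem lint_ind (R b : ℝ) (hR : 0 ≤ R) (f : ℝ → ℝ≥0∞)
    (hf : ∀ x, f x ≤ (Icc (-R) R).indicator (fun _ => ENNReal.ofReal b) x) :
    ∫⁻ x, f x ≤ ENNReal.ofReal (2 * R * b) := by
  calc ∫⁻ x, f x ≤ ∫⁻ x, (Icc (-R) R).indicator (fun _ => ENNReal.ofReal b) x := lintegral_mono hf
    _ = ENNReal.ofReal b * volume (Icc (-R) R) := by
        rw [lintegral_indicator measurableSet_Icc, setLIntegral_const]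
    _ = ENNReal.ofReal (2 * R * b) := by
        rw [Real.volume_Icc, mul_comm, ← ENNReal.ofReal_mul (by linarith)]
        congr 1
        ring

theorem slice2 (f : ℝ × ℝ → ℝ) (hf : Continuous f) (m k R : ℝ) (hk : 0 < k) (hR : 0 ≤ R)
    (h : (∀ (a : ℝ × ℝ) (s : ℝ), k * |s| ≤ f a + f (a.1 + s, a.2)) ∨
      (∀ (a : ℝ × ℝ) (s : ℝ), k * |s| ≤ f a + f (a.1, a.2 + s))) :
    volume ((Icc (-R) R ×ˢ Icc (-R) R) ∩ {a : ℝ × ℝ | f a < m}) ≤
      ENNReal.ofReal (2 * R * (2 * max m 0 / k)) := by
  have hm : MeasurableSet ((Icc (-R) R ×ˢ Icc (-R) R) ∩ {a : ℝ × ℝ | f a < m}) :=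
    (measurableSet_Icc.prod measurableSet_Icc).inter (measurableSet_lt hf.measurable measurable_const)
  rcases h with h | h
  · rw [Measure.volume_eq_prod, Measure.prod_apply_symm hm]
    refine lint_ind R _ hR _ fun y => ?_
    by_cases hy : y ∈ Icc (-R) R
    · rw [indicator_of_mem hy]
      refine (measure_mono ?_).trans (slice (fun x => f (x, y)) m k hk fun x s => h (x, y) s)
      intro x hx
      exact hx.2
    · rw [indicator_of_notMem hy]
      apply le_of_eq
      rw [← measure_empty (μ := (volume : Measure ℝ))]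
      congr 1
      ext x
      simp only [mem_preimage, mem_inter_iff, mem_prod, mem_empty_iff_false, iff_false]
      exact fun hx => hy hx.1.2
  · rw [Measure.volume_eq_prod, Measure.prod_apply hm]
    refine lint_ind R _ hR _ fun x => ?_
    by_cases hx : x ∈ Icc (-R) R
    · rw [indicator_of_mem hx]
      refine (measure_mono ?_).trans (slice (fun y => f (x, y)) m k hk fun y s => h (x, y) s)
      intro y hy
      exact hy.2
    · rw [indicator_of_notMem hx]
      apply le_of_eq
      rw [← measure_empty (μ := (volume : Measure ℝ))]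
      congr 1
      ext y
      simp only [mem_preimage, mem_inter_iff, mem_prod, mem_empty_iff_false, iff_false]
      exact fun hy => hx hy.1.1

theorem prob : Run7.h148.E3.St_PROB := by
  intro F c M hc hM hF hst hint
  set F' : ℝ × (ℝ × ℝ) → ℝ := fun q => F (max q.1 0) q.2 with hF'd
  have hF' : Continuous F' := by
    have : Continuous fun q : ℝ × (ℝ × ℝ) => ((max q.1 0, q.2) : ℝ × (ℝ × ℝ)) := by fun_prop
    exact hF.comp_continuous this fun q => ⟨mem_Ici.2 (le_max_right q.1 0), mem_univ _⟩
  set E : Set (ℝ × (ℝ × ℝ)) := {q | 1 < q.1 ∧ F' q < M q.1} with hEd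
  have hE : MeasurableSet E :=
    (measurableSet_lt measurable_const measurable_fst).inter
      (measurableSet_lt hF'.measurable (hM.comp measurable_fst))
  set g : ℝ × (ℝ × ℝ) → ℝ≥0∞ := E.indicator (fun q => ENNReal.ofReal (1 / q.1)) with hgd
  have hg : Measurable g := Measurable.indicator (by fun_prop) hE
  have hset : ∀ a : ℝ × ℝ, ∫⁻ t in {t | 1 < t ∧ F t a < M t}, ENNReal.ofReal (1 / t) =
      ∫⁻ t, g (t, a) := by
    intro a
    have h1 : {t : ℝ | 1 < t ∧ F t a < M t} = {t | (t, a) ∈ E} := by
      ext t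
      simp only [hEd, hF'd, Set.mem_ofPred_eq]
      constructor
      · rintro ⟨h1, h2⟩
        exact ⟨h1, by rwa [max_eq_left (by linarith)]⟩
      · rintro ⟨h1, h2⟩
        exact ⟨h1, by rwa [max_eq_left (by linarith)] at h2⟩
    have h2 : MeasurableSet {t : ℝ | (t, a) ∈ E} := hE.preimage (by fun_prop)
    rw [h1, ← lintegral_indicator h2]
    rfl
  have key : ∀ R : ℕ, ∫⁻ a in (Icc (-(R : ℝ)) R ×ˢ Icc (-(R : ℝ)) R), ∫⁻ t, g (t, a) < ⊤ := by
    intro R
    have hsw : ∫⁻ a in (Icc (-(R : ℝ)) R ×ˢ Icc (-(R : ℝ)) R), ∫⁻ t, g (t, a) =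
        ∫⁻ t, ∫⁻ a in (Icc (-(R : ℝ)) R ×ˢ Icc (-(R : ℝ)) R), g (t, a) := by
      refine lintegral_lintegral_swap (f := fun a t => g (t, a)) ?_
      exact (hg.comp measurable_swap).aemeasurable
    rw [hsw]
    have hb : ∀ t, ∫⁻ a in (Icc (-(R : ℝ)) R ×ˢ Icc (-(R : ℝ)) R), g (t, a) ≤
        (Ioi (1 : ℝ)).indicator
          (fun t => ENNReal.ofReal (4 * R / c) * ENNReal.ofReal ‖M t / t ^ 2‖) t := by
      intro t
      by_cases ht : 1 < t
      · rw [indicator_of_mem (mem_Ioi.2 ht)]
        have ht0 : 0 < t := by linarith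
        have hFt : Continuous (F t) := by
          have h3 : F t = fun a => F' (t, a) := by
            funext a
            simp only [hF'd]
            rw [max_eq_left ht0.le]
          rw [h3]
          fun_prop
        have h1 : ∀ a, g (t, a) = {a | F t a < M t}.indicator (fun _ => ENNReal.ofReal (1 / t)) a := by
          intro a
          simp only [hgd]
          by_cases ha : F t a < M t
          · rw [indicator_of_mem, indicator_of_mem]
            · exact ha
            · refine ⟨ht, ?_⟩
              simp only [hF'd]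
              rwa [max_eq_left ht0.le]
          · rw [indicator_of_notMem, indicator_of_notMem]
            · exact ha
            · rintro ⟨_, h3⟩
              simp only [hF'd] at h3
              rw [max_eq_left ht0.le] at h3
              exact ha h3
        have hms : MeasurableSet {a : ℝ × ℝ | F t a < M t} :=
          measurableSet_lt hFt.measurable measurable_const
        simp only [h1]
        rw [lintegral_indicator hms, setLIntegral_const, Measure.restrict_apply hms, inter_comm]
        refine (mul_le_mul_right (slice2 (F t) hFt (M t) (c * t) R (by positivity)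
          (by positivity) (hst t ht.le)) _).trans ?_
        rw [← ENNReal.ofReal_mul (by positivity), ← ENNReal.ofReal_mul (by positivity)]
        apply ENNReal.ofReal_le_ofReal
        have h5 : max (M t) 0 ≤ |M t| := max_le (le_abs_self _) (abs_nonneg _)
        rw [Real.norm_eq_abs, abs_div, abs_of_pos (by positivity : 0 < t ^ 2)]
        calc 1 / t * (2 * (R : ℝ) * (2 * max (M t) 0 / (c * t)))
            = 4 * R / c * (max (M t) 0 / t ^ 2) := by
              field_simp
              ring
          _ ≤ 4 * R / c * (|M t| / t ^ 2) := by gcongr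
      · rw [indicator_of_notMem (by simpa using ht)]
        apply le_of_eq
        rw [lintegral_eq_zero_of_ae_eq_zero]
        refine Filter.Eventually.of_forall fun a => ?_
        simp only [hgd]
        rw [indicator_of_notMem]
        · rfl
        · exact fun h => ht h.1
    refine (lintegral_mono hb).trans_lt ?_
    rw [lintegral_indicator measurableSet_Ioi, lintegral_const_mul']
    · refine ENNReal.mul_lt_top ENNReal.ofReal_lt_top ?_
      have := hint.2
      rw [HasFiniteIntegral] at this
      refine lt_of_le_of_lt (le_of_eq ?_) this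
      refine lintegral_congr fun t => ?_
      rw [← ofReal_norm]
    · exact ENNReal.ofReal_ne_top
  have hall : ∀ R : ℕ, ∀ᵐ a : ℝ × ℝ, a ∈ (Icc (-(R : ℝ)) R ×ˢ Icc (-(R : ℝ)) R) →
      ∫⁻ t, g (t, a) < ⊤ := by
    intro R
    rw [← ae_restrict_iff' (measurableSet_Icc.prod measurableSet_Icc)]
    refine ae_lt_top ?_ (key R).ne
    exact Measurable.lintegral_prod_left' hg
  filter_upwards [ae_all_iff.2 hall] with a ha
  rw [hset]
  obtain ⟨R, hR⟩ := exists_nat_ge (max |a.1| |a.2|)
  refine ha R ⟨?_, ?_⟩
  · rw [mem_Icc, ← abs_le]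
    exact (le_max_left _ _).trans hR
  · rw [mem_Icc, ← abs_le]
    exact (le_max_right _ _).trans hR

end Run7.h404.EP
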